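import Pool.Agent.H76.SW.T

/-!
Module D3 (from a rooted tree decomposition to a tree decomposition), helper34.
-/

namespace Pool.Agent.H34.SW

open Pool.Agent.H76.SW

theorem pf_D3 (h1 : U_d0_tree) : U_d3_unroot := by
  classical
  intro V G k h
  obtain ⟨D⟩ := h
  have := D.fin
  have htree := h1 (N := Option D.N) none (fun o => o.bind D.par)
    (fun o => o.elim 0 (fun x => D.rk x + 1)) (by
      intro x hx
      cases x with
      | none => exact absurd rfl hx
      | some y =>
        simp only [Option.bind_some, Option.elim]
        cases hy : D.par y with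
        | none => simp
        | some z =>
          have := D.hrk y z hy
          simp only
          omega)
  refine ⟨Option D.N, inferInstance, _, fun o => o.elim ∅ (fun x => (D.B x : Set V)), htree,
    ?_, ?_, ?_, ?_⟩
  · intro v
    obtain ⟨x, hx⟩ := D.cov v
    exact ⟨some x, by simpa using hx⟩
  · intro u v huv
    obtain ⟨x, hx1, hx2⟩ := D.edge u v huv
    exact ⟨some x, by simpa using hx1, by simpa using hx2⟩
  · intro v
    obtain ⟨t, ht, hconn⟩ := D.conn v
    have ht' : some t ∈ {x : Option D.N | v ∈ (x.elim ∅ (fun x => (D.B x : Set V)) : Set V)} := by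
      simpa using ht
    have key : ∀ n : ℕ, ∀ x : D.N, D.rk x ≤ n → ∀ hx : some x ∈
        {x : Option D.N | v ∈ (x.elim ∅ (fun x => (D.B x : Set V)) : Set V)},
        ((SimpleGraph.fromRel fun x y : Option D.N =>
          x ≠ none ∧ (fun o : Option D.N => o.bind D.par) x = y).induce
          {x : Option D.N | v ∈ (x.elim ∅ (fun x => (D.B x : Set V)) : Set V)}).Reachable
          ⟨some x, hx⟩ ⟨some t, ht'⟩ := by
      intro n
      induction n with
      | zero =>
        intro x hxn hx
        have hx' : v ∈ D.B x := by simpa using hx
        rcases hconn x hx' with rfl | ⟨y, hy, _⟩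
        · exact SimpleGraph.Reachable.refl _
        · have := D.hrk x y hy
          omega
      | succ n ih =>
        intro x hxn hx
        have hx' : v ∈ D.B x := by simpa using hx
        rcases hconn x hx' with rfl | ⟨y, hy, hvy⟩
        · exact SimpleGraph.Reachable.refl _
        · have hlt := D.hrk x y hy
          have hyS : some y ∈
              {x : Option D.N | v ∈ (x.elim ∅ (fun x => (D.B x : Set V)) : Set V)} := by
            simpa using hvy
          refine SimpleGraph.Reachable.trans (SimpleGraph.Adj.reachable ?_)
            (ih y (by omega) hyS)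
          rw [SimpleGraph.comap_adj]
          simp only [Function.Embedding.subtype_apply, SimpleGraph.fromRel_adj]
          refine ⟨?_, Or.inl ⟨by simp, by simpa using hy⟩⟩
          intro e
          have : x = y := Option.some.inj e
          subst this
          exact lt_irrefl _ hlt
    have : Nonempty {x : Option D.N | v ∈ (x.elim ∅ (fun x => (D.B x : Set V)) : Set V)} :=
      ⟨⟨some t, ht'⟩⟩
    refine SimpleGraph.Connected.mk ?_
    rintro ⟨a, ha⟩ ⟨b, hb⟩
    have haux : ∀ (a : Option D.N) (ha : a ∈
        {x : Option D.N | v ∈ (x.elim ∅ (fun x => (D.B x : Set V)) : Set V)}),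
        ((SimpleGraph.fromRel fun x y : Option D.N =>
          x ≠ none ∧ (fun o : Option D.N => o.bind D.par) x = y).induce
          {x : Option D.N | v ∈ (x.elim ∅ (fun x => (D.B x : Set V)) : Set V)}).Reachable
          ⟨a, ha⟩ ⟨some t, ht'⟩ := by
      intro a ha
      cases a with
      | none => simp at ha
      | some x => exact key _ x le_rfl ha
    exact (haux a ha).trans (haux b hb).symm
  · intro x
    cases x with
    | none => simp
    | some x =>
      simp only [Option.elim]
      refine ⟨Finset.finite_toSet _, ?_⟩
      rw [Set.ncard_coe_finset]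
      exact D.card x

end Pool.Agent.H34.SW
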