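import Pool.Agent.H76.SW.T

/-!
Module E2 (expansion at the top level), helper34.
-/

namespace Pool.Agent.H34.SW

open Pool.Agent.H76.SW

/-- The body with two variables and one atom with the automaton `M`. -/
def b1 {A : Type} {c : ℕ} (s : ℕ) (M : NFA ((A ⊕ Fin c) × Bool) (Fin s)) : Body A c where
  n := 2
  m := 1
  src := fun _ => 0
  tgt := fun _ => 1
  st := fun _ => s
  aut := fun _ => M

theorem pf_E2 (h1 : U_e1_exp) (h2 : U_d6_small) (_h3 : U_d7_path) (_h4 : U_d9_mono) :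
    U_e2_top := by
  classical
  intro A k hk r t ht V E z h hV
  by_cases h0 : t.b.n = 0
  · have hE : Fin t.b.n → False := fun x => by
      have := x.2
      omega
    refine ⟨1, 0, Fin.elim0, Fin.elim0, Fin.elim0, 0, fun _ => 0, ?_, ?_, ?_, ?_⟩
    · exact h2 _ k (by simp)
    · intro i
      exact i.elim0
    · exact ⟨fun _ => Classical.choice hV, fun i => i.elim0, fun j => (hE (t.out j)).elim⟩
    · intro V' E' μ' _
      exact ⟨fun x => (hE x).elim, fun i => (hE (t.b.src i)).elim, fun i => (hE (t.out i)).elim⟩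
  · obtain ⟨μ, hμ, hz⟩ := h
    have hw : ∀ i : Fin t.b.m,
        (RQ.cq t.c (b1 (t.b.st i) (t.b.aut i)) t.sub (0 : Fin 2) (1 : Fin 2)).Width k := by
      intro i
      refine ⟨h2 _ k ?_, ht.2⟩
      show Fintype.card (Fin 2) ≤ k + 1
      simp
      omega
    have hs : ∀ i : Fin t.b.m,
        (RQ.cq t.c (b1 (t.b.st i) (t.b.aut i)) t.sub (0 : Fin 2) (1 : Fin 2)).Sat E
          (μ (t.b.src i)) (μ (t.b.tgt i)) := by
      intro i
      refine ⟨fun x : Fin 2 => if x = 0 then μ (t.b.src i) else μ (t.b.tgt i), ?_, ?_, ?_⟩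
      · intro _
        exact hμ i
      · rfl
      · rfl
    have hT := fun i => h1 k hk _ (hw i) E _ _ (hs i)
    choose T hT1 hT2 hT3 using hT
    refine ⟨t.b.n, t.b.m, t.b.src, t.b.tgt, T, ⟨0, Nat.pos_of_ne_zero h0⟩, t.out, ?_, hT1, ?_, ?_⟩
    · exact ht.1
    · exact ⟨μ, hT2, hz⟩
    · intro V' E' μ' hμ'
      refine ⟨μ', ?_, fun _ => rfl⟩
      intro i
      obtain ⟨ν, hν, e0, e1⟩ := hT3 i V' E' _ _ (hμ' i)
      have := hν (0 : Fin 1)
      rw [← e0, ← e1]
      exact this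

end Pool.Agent.H34.SW
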